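import Pool.Agent.K4H21.DB.Core
import Pool.Agent.K4H21.DB.Defs
import Pool.Agent.K4H29.HC.Typ4
import Pool.Agent.K4H34.DB.Rank
import Pool.Agent.H977R3.CM.Aut

/-!
# The defect of an abelian variety with complex multiplication is the rank of the relations
-/

set_option linter.unusedSectionVars false
set_option linter.unusedVariables false
set_option autoImplicit false

namespace Pool.Agent.K4H94.DB

open NumberField Pool.Agent.H204R3.CM Module Pool.Agent.Y90
open Pool.Agent.W547.KB (CMPair CMAV Wt St)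
open Pool.Agent.W547.LN (SameType)
open Pool.Agent.K4H29.HC (Primitive IsCMFactor hom_zero pol_of_factor avP perC)
open Pool.Agent.K4H21.DB (signs SV defect Lam PX compl_PX sg mem_Lam)
open Pool.Agent.K4H34.DB (LamP finrank_LamP)
open Pool.Agent.H977R3.CM (exists_gal exists_aut)

noncomputable section

theorem lam_eq {G : Type} [Fintype G] (P : Set (Set G)) : Lam P = LamP P := by
  ext a
  exact Iff.rfl

/-- Isomorphic types have the same sign vectors. -/
theorem signs_sameType {A B : CMPair} (e : A.E ≃+* B.E)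
    (he : ∀ ψ : B.E →+* ℂ, ψ ∈ B.Φ ↔ ψ.comp (e : A.E →+* B.E) ∈ A.Φ) (φ : A.E →+* ℂ) :
    signs A φ = signs B (φ.comp (e.symm : B.E →+* A.E)) := by
  classical
  funext τ
  have h : (τ : ℂ →+* ℂ).comp φ ∈ A.Φ ↔
      (τ : ℂ →+* ℂ).comp (φ.comp (e.symm : B.E →+* A.E)) ∈ B.Φ := by
    rw [he]
    have h1 : ((τ : ℂ →+* ℂ).comp (φ.comp (e.symm : B.E →+* A.E))).comp (e : A.E →+* B.E) =
        (τ : ℂ →+* ℂ).comp φ := by
      refine RingHom.ext fun a => ?_
      change τ (φ (e.symm (e a))) = τ (φ a)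
      rw [e.symm_apply_apply]
    rw [h1]
  unfold signs
  simp only [h]

section av

variable {X : AV} {X0 : CMAV} (hprim : ∀ i, Primitive (X0.factor i)) (e : X.H ≃ₗ[ℚ] X0.H1)
  (Θ : X.T ≃ₗ[ℂ] X0.Tan) (hΘ : ∀ v, Θ (X.per v) = X0.per (e v))

include hprim hΘ in
/-- The factors are factors. -/
theorem isCMFactor_factor (i : X0.I) : IsCMFactor (X0.factor i) X := by
  classical
  refine ⟨hprim i, e.symm.toLinearMap.comp (LinearMap.single ℚ (fun i => (X0.factor i).E) i),
    Θ.symm.toLinearMap.comp (LinearMap.single ℂ (fun i => (X0.factor i).Φ → ℂ) i), ?_, fun a => ?_⟩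
  · intro a b h
    exact Pi.single_injective i (e.symm.injective h)
  · have h1 : Θ (X.per (e.symm (Pi.single i a))) = X0.per (Pi.single i a) := by
      rw [hΘ, LinearEquiv.apply_symm_apply]
    have h2 : X0.per (Pi.single i a) =
        (Pi.single i (fun φ : (X0.factor i).Φ => φ.1 a) : ∀ i, (X0.factor i).Φ → ℂ) := by
      funext l
      by_cases hl : l = i
      · subst hl
        funext φ
        change φ.1 ((Pi.single l a : ∀ i, (X0.factor i).E) l) = _
        rw [Pi.single_eq_same, Pi.single_eq_same]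
      · funext φ
        change φ.1 ((Pi.single i a : ∀ i, (X0.factor i).E) l) = _
        rw [Pi.single_eq_of_ne hl, Pi.single_eq_of_ne hl, map_zero]
        rfl
    change Θ.symm (Pi.single i (fun φ : (X0.factor i).Φ => φ.1 a) : ∀ i, (X0.factor i).Φ → ℂ) =
      X.per (e.symm (Pi.single i a))
    rw [LinearEquiv.symm_apply_eq, h1, h2]

include hprim hΘ in
/-- Every simple factor with complex multiplication is one of the factors. -/
theorem exists_sameType {A : CMPair} (hA : IsCMFactor A X) : ∃ i, SameType A (X0.factor i) := by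
  classical
  obtain ⟨hAp, ι, Ψ, hinj, hΨ⟩ := hA
  by_contra hcon
  push Not at hcon
  have hP := pol_of_factor ι Ψ hinj hΨ
  have h1 : e (ι 1) = 0 := by
    funext i
    obtain ⟨hQp, ι', Ψ', hinj', hΨ'⟩ := isCMFactor_factor hprim e Θ hΘ i
    have hQ := pol_of_factor ι' Ψ' hinj' hΨ'
    let f : A.E →ₗ[ℚ] (X0.factor i).E := (LinearMap.proj i).comp (e.toLinearMap.comp ι)
    have hf : IsHom (avP A hP) (avP (X0.factor i) hQ) f := by
      refine ⟨(LinearMap.proj i).comp (Θ.toLinearMap.comp Ψ), fun a => ?_⟩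
      change (Θ (Ψ (perC A a))) i = perC (X0.factor i) (e (ι a) i)
      have h2 : Ψ (perC A a) = X.per (ι a) := hΨ a
      rw [h2, hΘ]
      rfl
    have h3 := hom_zero hAp (hprim i) (hcon i) hf
    exact congrArg (fun g : A.E →ₗ[ℚ] (X0.factor i).E => g 1) h3
  rw [LinearEquiv.map_eq_zero_iff] at h1
  exact one_ne_zero (hinj (h1.trans (map_zero ι).symm))

end av

theorem sv_eq {X : AV} {X0 : CMAV} (h1 : ∀ i, IsCMFactor (X0.factor i) X)
    (h2 : ∀ A : CMPair, IsCMFactor A X → ∃ i, SameType A (X0.factor i)) :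
    SV X = {s | ∃ (i : X0.I) (φ : (X0.factor i).E →+* ℂ), s = signs (X0.factor i) φ} := by
  ext s
  constructor
  · rintro ⟨A, hA, φ, rfl⟩
    obtain ⟨i, e', he'⟩ := h2 A hA
    exact ⟨i, _, signs_sameType e' he' φ⟩
  · rintro ⟨i, φ, rfl⟩
    exact ⟨X0.factor i, h1 i, φ, rfl⟩

/-- The sign function with rational values. -/
def eps {G : Type} (S : Set G) : G → ℚ := by
  classical
  exact fun σ => if σ ∈ S then (1 : ℚ) else -1

theorem eps_injective {G : Type} : Function.Injective (eps : Set G → G → ℚ) := by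
  classical
  intro S T h
  ext σ
  have h1 := congrFun h σ
  unfold eps at h1
  by_cases hS : σ ∈ S
  · by_cases hT : σ ∈ T
    · exact iff_of_true hS hT
    · simp only [if_pos hS, if_neg hT] at h1
      norm_num at h1
  · by_cases hT : σ ∈ T
    · simp only [if_neg hS, if_pos hT] at h1
      norm_num at h1
    · exact iff_of_false hS hT

variable {L : Type} [Field L] [NumberField L] [IsCMField L] [IsGalois ℚ L]

/-- **The defect.** -/
theorem defect_eq_gen (j : L →+* ℂ) {X : AV} {X0 : CMAV} (h1 : ∀ i, IsCMFactor (X0.factor i) X)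
    (h2 : ∀ A : CMPair, IsCMFactor A X → ∃ i, SameType A (X0.factor i))
    (hj : ∀ i, ∀ ψ : (X0.factor i).E →+* ℂ, ∃ φ : (X0.factor i).E →+* L, j.comp φ = ψ) :
    defect X = finrank ℤ (Lam (PX j X0)) := by
  classical
  choose r hr using exists_gal j
  have hsurj : Function.Surjective r := by
    intro g
    obtain ⟨τ, hτ⟩ := exists_aut j (g : L ≃+* L)
    refine ⟨τ, AlgEquiv.ext fun x => j.injective ?_⟩
    rw [← hr, hτ]
    rfl
  let R : ((L ≃ₐ[ℚ] L) → ℚ) →ₗ[ℚ] ((ℂ ≃+* ℂ) → ℚ) := LinearMap.funLeft ℚ ℚ r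
  have hR : Function.Injective R := LinearMap.funLeft_injective_of_surjective ℚ ℚ r hsurj
  have key : ∀ x : Wt X0 L, signs (X0.factor x.1) (j.comp x.2) = R (eps (St j x)) := by
    intro x
    funext τ
    change (if (τ : ℂ →+* ℂ).comp (j.comp x.2) ∈ (X0.factor x.1).Φ then (1 : ℚ) else -1) =
      if r τ ∈ St j x then (1 : ℚ) else -1
    have h1 : (τ : ℂ →+* ℂ).comp (j.comp x.2) = j.comp (r τ • x.2) := by
      refine RingHom.ext fun a => ?_
      exact hr τ (x.2 a)
    rw [h1]
    rfl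
  have hSV : SV X = R '' (eps '' PX j X0) := by
    rw [sv_eq h1 h2]
    ext s
    constructor
    · rintro ⟨i, φ, rfl⟩
      obtain ⟨φ', rfl⟩ := hj i φ
      exact ⟨_, ⟨_, ⟨⟨i, φ'⟩, rfl⟩, rfl⟩, (key ⟨i, φ'⟩).symm⟩
    · rintro ⟨_, ⟨_, ⟨x, rfl⟩, rfl⟩, rfl⟩
      exact ⟨x.1, j.comp x.2, (key x).symm⟩
  have h5 : (SV X).ncard = (PX j X0).ncard := by
    rw [hSV, Set.ncard_image_of_injective _ hR, Set.ncard_image_of_injective _ eps_injective]
  have h6 : finrank ℚ (Submodule.span ℚ (SV X)) =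
      finrank ℚ (Submodule.span ℚ (eps '' PX j X0)) := by
    rw [hSV, ← Submodule.map_span]
    exact (Submodule.equivMapOfInjective R hR _).finrank_eq.symm
  have h3 := finrank_LamP (PX j X0) (compl_PX j X0)
  have h4 : finrank ℤ (Lam (PX j X0)) + finrank ℚ (Submodule.span ℚ (eps '' PX j X0)) =
      (PX j X0).ncard / 2 := by
    rw [lam_eq]
    exact h3
  unfold defect
  rw [h5, h6, ← h4]
  omega

theorem defect_eq (j : L →+* ℂ) {X : AV} {X0 : CMAV} (hprim : ∀ i, Primitive (X0.factor i))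
    (e : X.H ≃ₗ[ℚ] X0.H1) (Θ : X.T ≃ₗ[ℂ] X0.Tan) (hΘ : ∀ v, Θ (X.per v) = X0.per (e v))
    (hj : ∀ i, ∀ ψ : (X0.factor i).E →+* ℂ, ∃ φ : (X0.factor i).E →+* L, j.comp φ = ψ) :
    defect X = finrank ℤ (Lam (PX j X0)) :=
  defect_eq_gen j (fun i => isCMFactor_factor hprim e Θ hΘ i)
    (fun _ hA => exists_sameType hprim e Θ hΘ hA) hj

end

end Pool.Agent.K4H94.DB
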